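import Mathlib
import Pool.Agent.W110.HV.Avg
import Pool.Agent.W110.HV.Classes

/-! Mean squares of the error terms in the prime number theorem for progressions, after the removal of
the characters of small conductor: prime moduli, and all moduli. -/

set_option autoImplicit false

namespace Pool.Agent.X25.MG
open Finset
open Pool.Agent.W110.HV
open Pool.Agent.Helper112

/-- sum of `Λ` over `n ≤ N` not coprime to `q` (as in `Pool.Agent.H343R2.Pnt`) -/
lemma sum_not_coprime (q N : ℕ) (hq : 1 ≤ q) (hN : 1 ≤ N) :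
    ∑ n ∈ (Icc 1 N).filter (fun n => ¬ n.Coprime q), ArithmeticFunction.vonMangoldt n ≤
      q.primeFactors.card * Real.log N := by
  have h1 : ∑ n ∈ (Icc 1 N).filter (fun n => ¬ n.Coprime q), ArithmeticFunction.vonMangoldt n ≤
      ∑ m ∈ (q.primeFactors).biUnion fun p ↦ image (p ^ ·) (Icc 1 (p.log N)),
        ArithmeticFunction.vonMangoldt m := by
    rw [← Finset.sum_filter_ne_zero]
    apply Finset.sum_le_sum_of_subset_of_nonneg
    · intro n hn
      rw [mem_filter, mem_filter, mem_Icc] at hn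
      obtain ⟨⟨⟨h1, h2⟩, h3⟩, h4⟩ := hn
      have h5 := ArithmeticFunction.vonMangoldt_ne_zero_iff.1 h4
      obtain ⟨p, k, hp, hk, rfl⟩ := (isPrimePow_nat_iff _).1 h5
      have hpq : p ∣ q := by
        by_contra hc
        exact h3 (((Nat.Prime.coprime_iff_not_dvd hp).2 hc).pow_left k)
      rw [mem_biUnion]
      refine ⟨p, Nat.mem_primeFactors.2 ⟨hp, hpq, by omega⟩, ?_⟩
      rw [mem_image]
      exact ⟨k, mem_Icc.2 ⟨hk, Nat.le_log_of_pow_le hp.one_lt h2⟩, rfl⟩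
    · intro n _ _
      exact ArithmeticFunction.vonMangoldt_nonneg
  have h2 : ∑ m ∈ (q.primeFactors).biUnion fun p ↦ image (p ^ ·) (Icc 1 (p.log N)),
        ArithmeticFunction.vonMangoldt m = ∑ p ∈ q.primeFactors, (p.log N : ℝ) * Real.log p := by
    rw [sum_biUnion]
    · apply sum_congr rfl
      intro p hp
      have hpp := Nat.prime_of_mem_primeFactors hp
      rw [sum_image fun a _ b _ hab ↦ Nat.pow_right_injective hpp.two_le hab]
      have : ∀ k ∈ Icc 1 (p.log N), ArithmeticFunction.vonMangoldt (p ^ k) = Real.log p := by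
        intro k hk
        rw [mem_Icc] at hk
        rw [ArithmeticFunction.vonMangoldt_apply_pow (by omega),
          ArithmeticFunction.vonMangoldt_apply_prime hpp]
      rw [sum_congr rfl this]
      simp
    · intro p hp r hr hpr
      have hpp := Nat.prime_of_mem_primeFactors hp
      have hrr := Nat.prime_of_mem_primeFactors hr
      simp only [Function.onFun]
      rw [Finset.disjoint_left]
      intro a ha hb
      rw [mem_image] at ha hb
      obtain ⟨k, hk, rfl⟩ := ha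
      obtain ⟨j, hj, hjk⟩ := hb
      rw [mem_Icc] at hk hj
      apply hpr
      have h6 : r ∣ p ^ k := by
        rw [← show r ^ j = p ^ k from hjk]
        exact dvd_pow_self r (by omega)
      exact ((Nat.prime_dvd_prime_iff_eq hrr hpp).1 (hrr.dvd_of_dvd_pow h6)).symm
  have h3 : ∀ p ∈ q.primeFactors, (p.log N : ℝ) * Real.log p ≤ Real.log N := by
    intro p hp
    have hpp := Nat.prime_of_mem_primeFactors hp
    rw [← Real.log_pow]
    apply Real.log_le_log
    · have := hpp.pos; positivity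
    · exact_mod_cast Nat.pow_log_le_self p (by omega)
  calc _ ≤ _ := h1
    _ = _ := h2
    _ ≤ ∑ p ∈ q.primeFactors, Real.log N := sum_le_sum h3
    _ = q.primeFactors.card * Real.log N := by rw [sum_const, nsmul_eq_mul]

lemma omega_le (q : ℕ) (hq : 1 ≤ q) : (q.primeFactors.card : ℝ) ≤ 2 * Real.log q := by
  have h1 : 2 ^ q.primeFactors.card ≤ q := by
    calc 2 ^ q.primeFactors.card = ∏ _p ∈ q.primeFactors, 2 := by rw [Finset.prod_const]
      _ ≤ ∏ p ∈ q.primeFactors, p := Finset.prod_le_prod' (fun p hp =>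
          (Nat.prime_of_mem_primeFactors hp).two_le)
      _ ≤ q := Nat.le_of_dvd (by omega) (Nat.prod_primeFactors_dvd q)
  have h2 : (q.primeFactors.card : ℝ) * Real.log 2 ≤ Real.log q := by
    rw [← Real.log_pow]
    apply Real.log_le_log (by positivity)
    exact_mod_cast h1
  have h3 : (1 : ℝ) / 2 ≤ Real.log 2 := by have := Real.log_two_gt_d9; linarith
  have h4 : (0 : ℝ) ≤ q.primeFactors.card := by positivity
  nlinarith

/-- `Λ` as a complex function -/
noncomputable def uL (n : ℕ) : ℂ := ((ArithmeticFunction.vonMangoldt n : ℝ) : ℂ)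

lemma norm_uL (n : ℕ) : ‖uL n‖ = ArithmeticFunction.vonMangoldt n := by
  unfold uL
  rw [Complex.norm_real, Real.norm_of_nonneg ArithmeticFunction.vonMangoldt_nonneg]

lemma psiChi_eq (X : ℝ) {q : ℕ} (χ : DirichletCharacter ℂ q) : psiChi X χ = CS ⌊X⌋₊ uL χ := rfl

lemma sum_sq (N : ℕ) (_hN : 1 ≤ N) : ∑ n ∈ Icc 1 N, ‖uL n‖ ^ 2 ≤ N * Real.log N ^ 2 := by
  calc ∑ n ∈ Icc 1 N, ‖uL n‖ ^ 2 ≤ ∑ _n ∈ Icc 1 N, Real.log N ^ 2 := by
        refine sum_le_sum fun n hn => ?_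
        rw [mem_Icc] at hn
        rw [norm_uL]
        apply pow_le_pow_left₀ ArithmeticFunction.vonMangoldt_nonneg
        exact ArithmeticFunction.vonMangoldt_le_log.trans
          (Real.log_le_log (by exact_mod_cast hn.1) (by exact_mod_cast hn.2))
    _ = _ := by rw [sum_const, Nat.card_Icc, nsmul_eq_mul]; simp

open Classical in
/-- for a prime modulus the nonprincipal characters are primitive -/
lemma prime_GR (q : ℕ) (hq : q.Prime) (X : ℝ) :
    (Nat.totient q : ℝ) * GR X q 1 = PM ⌊X⌋₊ uL q := by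
  have : NeZero q := ⟨hq.ne_zero⟩
  rw [GR_eq q X 1]
  unfold PM
  apply sum_congr _ fun χ _ => by rw [psiChi_eq]
  ext χ
  simp only [mem_filter, mem_univ, true_and]
  have hd := χ.conductor_dvd_level
  rw [DirichletCharacter.isPrimitive_def]
  rcases (Nat.dvd_prime hq).1 hd with h | h
  · rw [h]
    constructor
    · intro h2; omega
    · intro h2
      exact absurd h2.symm hq.one_lt.ne'
  · rw [h]
    exact ⟨fun _ => rfl, fun _ => hq.one_lt⟩

/-- sum over the prime moduli in `(K, M]` -/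
lemma prime_sum (X : ℝ) (K M : ℕ) (hK : 1 ≤ K) (hX : 1 ≤ ⌊X⌋₊) :
    ∑ q ∈ (Ioc K M).filter Nat.Prime, GR X q 1 ≤
      6 * (⌊X⌋₊ + (M : ℝ) ^ 2) * (⌊X⌋₊ * Real.log ⌊X⌋₊ ^ 2) / K := by
  have hKr : (0 : ℝ) < K := by exact_mod_cast hK
  rw [le_div_iff₀ hKr, sum_mul]
  have h1 : ∀ q ∈ (Ioc K M).filter Nat.Prime, GR X q 1 * K ≤ PM ⌊X⌋₊ uL q := by
    intro q hq
    rw [mem_filter, mem_Ioc] at hq
    rw [← prime_GR q hq.2 X, mul_comm]
    apply mul_le_mul_of_nonneg_right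
    · rw [Nat.totient_prime hq.2]
      exact_mod_cast (by omega : K ≤ q - 1)
    · unfold GR
      exact sum_nonneg fun _ _ => by positivity
  refine (sum_le_sum h1).trans ?_
  have h2 : ∑ q ∈ (Ioc K M).filter Nat.Prime, PM ⌊X⌋₊ uL q ≤ ∑ q ∈ Icc 1 M, PM ⌊X⌋₊ uL q := by
    apply sum_le_sum_of_subset_of_nonneg
    · intro q hq
      rw [mem_filter, mem_Ioc] at hq
      rw [mem_Icc]
      exact ⟨by omega, hq.1.2⟩
    · intro q _ _
      exact PM_nonneg _ _ _
  refine h2.trans ((PM_sum ⌊X⌋₊ uL M).trans ?_)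
  exact mul_le_mul_of_nonneg_left (sum_sq ⌊X⌋₊ hX) (by positivity)

/-- Chebyshev's inequality for pairs (modulus, class) -/
lemma cheb (S : Finset ℕ) (E : ℕ → ℕ → ℂ) (t : ℕ → ℝ) (T : ℝ) (hT : 0 < T)
    (ht : ∀ q ∈ S, 0 ≤ t q ∧ T ≤ t q ^ 2) :
    ∑ q ∈ S, ((((range q).filter (fun a => a.Coprime q ∧ t q < ‖E q a‖)).card : ℕ) : ℝ) ≤
      (∑ q ∈ S, ∑ a ∈ (range q).filter (fun a => Nat.Coprime a q), ‖E q a‖ ^ 2) / T := by
  rw [le_div_iff₀ hT, sum_mul]
  refine sum_le_sum fun q hq => ?_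
  obtain ⟨h0, h1⟩ := ht q hq
  rw [← nsmul_eq_mul, ← sum_const]
  calc ∑ _a ∈ (range q).filter (fun a => a.Coprime q ∧ t q < ‖E q a‖), T
      ≤ ∑ a ∈ (range q).filter (fun a => a.Coprime q ∧ t q < ‖E q a‖), ‖E q a‖ ^ 2 := by
        refine sum_le_sum fun a ha => ?_
        rw [mem_filter] at ha
        exact h1.trans (pow_le_pow_left₀ h0 ha.2.2.le 2)
    _ ≤ _ := by
        apply sum_le_sum_of_subset_of_nonneg
        · intro a ha
          rw [mem_filter] at ha ⊢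
          exact ⟨ha.1, ha.2.1⟩
        · intro _ _ _
          positivity

lemma ev_nat {p : ℝ → Prop} (h : ∀ᶠ x in Filter.atTop, p x) : ∃ n0 : ℕ, ∀ x : ℝ, n0 ≤ x → p x := by
  rw [Filter.eventually_atTop] at h
  obtain ⟨a, ha⟩ := h
  exact ⟨⌈a⌉₊, fun x hx => ha x ((Nat.le_ceil a).trans hx)⟩

lemma ev_log_ge (c : ℝ) : ∀ᶠ x : ℝ in Filter.atTop, c ≤ Real.log x :=
  Real.tendsto_log_atTop.eventually_ge_atTop c

lemma ev_pow_le (U : ℕ) (δ : ℝ) (hδ : 0 < δ) (c : ℝ) : ∀ᶠ x : ℝ in Filter.atTop, c * Real.log x ^ U ≤ x ^ δ := by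
  have h1 := (isLittleO_log_rpow_rpow_atTop (r := (U : ℝ)) (s := δ) hδ).def (c := 1 / (|c| + 1)) (by positivity)
  filter_upwards [h1, ev_log_ge 1, Filter.eventually_ge_atTop 1] with x h2 h3 h4
  rw [Real.rpow_natCast, Real.norm_of_nonneg (by positivity), Real.norm_of_nonneg (by positivity)] at h2
  have h5 : (|c| + 1) * Real.log x ^ U ≤ x ^ δ := by
    rw [div_mul_eq_mul_div, one_mul, le_div_iff₀ (by positivity)] at h2
    linarith
  refine le_trans ?_ h5
  apply mul_le_mul_of_nonneg_right _ (by positivity)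
  linarith [le_abs_self c]

/-- the contribution of the principal character -/
lemma smallPart_prime (X : ℝ) (q a : ℕ) (hq : q.Prime) (ha : a.Coprime q) (hX : 1 ≤ ⌊X⌋₊) :
    ‖smallPart X q 1 a - (((∑ n ∈ Icc 1 ⌊X⌋₊, ArithmeticFunction.vonMangoldt n) / (Nat.totient q : ℝ) : ℝ) : ℂ)‖ ≤
      Real.log ⌊X⌋₊ / Nat.totient q := by
  classical
  have : NeZero q := ⟨hq.ne_zero⟩
  have hφ : (0 : ℝ) < Nat.totient q := by exact_mod_cast Nat.totient_pos.2 hq.pos
  have hset : (univ : Finset (DirichletCharacter ℂ q)).filter (fun χ => χ.conductor ≤ 1) = {1} := by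
    ext χ
    simp only [mem_filter, mem_univ, true_and, mem_singleton]
    rw [DirichletCharacter.eq_one_iff_conductor_eq_one]
    have h0 := DirichletCharacter.conductor_ne_zero χ
    omega
  have h1 : smallPart X q 1 a = (1 / (Nat.totient q : ℂ)) * psiChi X (1 : DirichletCharacter ℂ q) := by
    unfold smallPart
    have hset' : ((univ : Finset (DirichletCharacter ℂ q)).filter (fun χ => χ.conductor ≤ 1)) = {1} := hset
    have e1 : ∑ χ ∈ (univ : Finset (DirichletCharacter ℂ q)).filter (fun χ => χ.conductor ≤ 1),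
        (starRingEnd ℂ) (χ (a : ZMod q)) * psiChi X χ = psiChi X (1 : DirichletCharacter ℂ q) := by
      rw [hset', sum_singleton, MulChar.one_apply ((ZMod.isUnit_iff_coprime a q).2 ha)]
      simp
    convert congrArg (fun z => (1 / (Nat.totient q : ℂ)) * z) e1 using 3
  have h2 : psiChi X (1 : DirichletCharacter ℂ q) =
      ((∑ n ∈ (Icc 1 ⌊X⌋₊).filter (fun n => n.Coprime q), ArithmeticFunction.vonMangoldt n : ℝ) : ℂ) := by
    unfold psiChi
    rw [sum_filter]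
    push_cast
    refine sum_congr rfl fun n _ => ?_
    by_cases hc : n.Coprime q
    · rw [if_pos hc, MulChar.one_apply ((ZMod.isUnit_iff_coprime n q).2 hc), mul_one]
    · rw [if_neg hc, MulChar.map_nonunit _ (fun hu => hc ((ZMod.isUnit_iff_coprime n q).mp hu)), mul_zero]
      simp
  have h3 : ∑ n ∈ (Icc 1 ⌊X⌋₊).filter (fun n => n.Coprime q), ArithmeticFunction.vonMangoldt n =
      ∑ n ∈ Icc 1 ⌊X⌋₊, ArithmeticFunction.vonMangoldt n -
      ∑ n ∈ (Icc 1 ⌊X⌋₊).filter (fun n => ¬ n.Coprime q), ArithmeticFunction.vonMangoldt n := by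
    rw [eq_sub_iff_add_eq, sum_filter_add_sum_filter_not]
  have h4 := sum_not_coprime q ⌊X⌋₊ hq.one_lt.le hX
  rw [hq.primeFactors, card_singleton] at h4
  have h5 : 0 ≤ ∑ n ∈ (Icc 1 ⌊X⌋₊).filter (fun n => ¬ n.Coprime q), ArithmeticFunction.vonMangoldt n :=
    sum_nonneg fun _ _ => ArithmeticFunction.vonMangoldt_nonneg
  rw [h1, h2, h3]
  set A := ∑ n ∈ Icc 1 ⌊X⌋₊, ArithmeticFunction.vonMangoldt n
  set B := ∑ n ∈ (Icc 1 ⌊X⌋₊).filter (fun n => ¬ n.Coprime q), ArithmeticFunction.vonMangoldt n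
  have h6 : (1 / (Nat.totient q : ℂ)) * (((A - B : ℝ)) : ℂ) - ((A / (Nat.totient q : ℝ) : ℝ) : ℂ) =
      ((-(B / Nat.totient q) : ℝ) : ℂ) := by
    push_cast
    ring
  rw [h6, Complex.norm_real, norm_neg, Real.norm_of_nonneg (by positivity)]
  apply div_le_div_of_nonneg_right _ hφ.le
  push_cast at h4
  linarith

/-- `ψ(x)` -/
noncomputable def psi (X : ℝ) : ℝ := ∑ n ∈ Icc 1 ⌊X⌋₊, ArithmeticFunction.vonMangoldt n

/-- for almost all pairs of a prime modulus `q` in `(Q/2, Q]` and a class, `x^(1/2-ε/4) ≤ Q ≤ x` -/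
theorem prime_pairs (ε : ℝ) (hε : 0 < ε) (hε1 : ε ≤ 1) : ∃ x₀ : ℝ, ∀ x : ℝ, x₀ ≤ x → ∀ Q : ℝ,
    x ^ (1 / 2 - ε / 4) ≤ Q → Q ≤ x →
    ∑ q ∈ (Ioc ⌊Q / 2⌋₊ ⌊Q⌋₊).filter Nat.Prime,
      ((((range q).filter (fun a => a.Coprime q ∧
        x ^ (1 / 2 + ε) / √(q : ℝ) < |psiAP x q a - psi x / (Nat.totient q : ℝ)|)).card : ℕ) : ℝ) ≤
      Q ^ 2 * x ^ (-ε) := by
  obtain ⟨m1, e1⟩ := ev_nat ((ev_pow_le 2 (ε / 2) (by positivity) 1000).and
    ((ev_pow_le 1 (1 / 8) (by norm_num) 100).and (Filter.eventually_ge_atTop (100 ^ 4))))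
  refine ⟨m1, fun x hx Q hQ1 hQ2 => ?_⟩
  obtain ⟨a1, a2, a3⟩ := e1 x hx
  rw [pow_one] at a2
  have hx0 : 0 < x := by linarith
  have hx1 : 1 ≤ x := by linarith
  have hs : 100 ≤ x ^ (1 / 2 - ε / 4) := by
    calc (100 : ℝ) = (100 ^ 4 : ℝ) ^ (1 / 4 : ℝ) := by
          rw [← Real.rpow_natCast, ← Real.rpow_mul (by norm_num)]; norm_num
      _ ≤ x ^ (1 / 4 : ℝ) := Real.rpow_le_rpow (by norm_num) a3 (by norm_num)
      _ ≤ x ^ (1 / 2 - ε / 4) := Real.rpow_le_rpow_of_exponent_le hx1 (by linarith)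
  have hQ0 : 100 ≤ Q := hs.trans hQ1
  have hQx : x ≤ Q ^ 2 * x ^ (ε / 2) := by
    calc x = (x ^ (1 / 2 - ε / 4)) ^ 2 * x ^ (ε / 2) := by
          have h1 : (x ^ (1 / 2 - ε / 4)) ^ 2 * x ^ (ε / 2) = x ^ (1 : ℝ) := by
            rw [← Real.rpow_natCast, ← Real.rpow_mul hx0.le, ← Real.rpow_add hx0]
            congr 1; push_cast; ring
          rw [h1, Real.rpow_one]
      _ ≤ Q ^ 2 * x ^ (ε / 2) := by
          apply mul_le_mul_of_nonneg_right _ (by positivity)
          exact pow_le_pow_left₀ (by positivity) hQ1 2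
  have hz1 : 1 ≤ x ^ (ε / 2) := Real.one_le_rpow hx1 (by positivity)
  set N := ⌊x⌋₊ with hN
  have hN1 : 1 ≤ N := by
    rw [hN]; exact Nat.le_floor (by exact_mod_cast hx1)
  have hNx : (N : ℝ) ≤ x := Nat.floor_le hx0.le
  have hN0 : (0 : ℝ) < N := by exact_mod_cast hN1
  have hlogN : Real.log N ≤ Real.log x := Real.log_le_log hN0 hNx
  have hlogN0 : 0 ≤ Real.log N := Real.log_natCast_nonneg N
  have hlog0 : 0 < Real.log x := Real.log_pos (by linarith)
  set K := ⌊Q / 2⌋₊ with hK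
  set M := ⌊Q⌋₊ with hM
  have hKle : (K : ℝ) ≤ Q / 2 := Nat.floor_le (by linarith)
  have hKgt : Q / 2 < K + 1 := Nat.lt_floor_add_one _
  have hK49 : (49 : ℝ) ≤ K := by linarith
  have hK1 : 1 ≤ K := by
    have : (1 : ℝ) ≤ K := by linarith
    exact_mod_cast this
  have hMle : (M : ℝ) ≤ Q := Nat.floor_le (by linarith)
  set S := (Ioc K M).filter Nat.Prime with hS
  -- half of the threshold
  set t : ℕ → ℝ := fun q => x ^ (1 / 2 + ε) / √(q : ℝ) / 2 with ht
  have hq : ∀ q ∈ S, (0 : ℝ) < q ∧ (q : ℝ) ≤ Q ∧ (49 : ℝ) ≤ q := by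
    intro q hq
    rw [hS, mem_filter, mem_Ioc] at hq
    have h1 : (K : ℝ) < q := by exact_mod_cast hq.1.1
    have h2 : (q : ℝ) ≤ M := by exact_mod_cast hq.1.2
    exact ⟨by linarith, by linarith, by linarith⟩
  have htq : ∀ q ∈ S, 0 ≤ t q ∧ x ^ (1 + 2 * ε) / (4 * Q) ≤ t q ^ 2 := by
    intro q hqS
    obtain ⟨h0, h1, h2⟩ := hq q hqS
    refine ⟨by positivity, ?_⟩
    have h3 : t q ^ 2 = x ^ (1 + 2 * ε) / (4 * q) := by
      rw [ht]
      dsimp only
      rw [div_pow, div_pow, Real.sq_sqrt h0.le, ← Real.rpow_natCast (x ^ (1 / 2 + ε)), ← Real.rpow_mul hx0.le]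
      have : (1 / 2 + ε) * ((2 : ℕ) : ℝ) = 1 + 2 * ε := by push_cast; ring
      rw [this]
      field_simp
      norm_num
    rw [h3]
    apply div_le_div_of_nonneg_left (by positivity) (by positivity)
    linarith
  have hT : 0 < x ^ (1 + 2 * ε) / (4 * Q) := by positivity
  have hch := cheb S (fun q a => (psiAP x q a : ℂ) - smallPart x q 1 a) t _ hT htq
  have hvar := prime_sum x K M hK1 hN1
  -- inclusion
  have hincl : ∀ q ∈ S, ((((range q).filter (fun a => a.Coprime q ∧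
        x ^ (1 / 2 + ε) / √(q : ℝ) < |psiAP x q a - psi x / (Nat.totient q : ℝ)|)).card : ℕ) : ℝ) ≤
      ((((range q).filter (fun a => a.Coprime q ∧ t q < ‖(psiAP x q a : ℂ) - smallPart x q 1 a‖)).card : ℕ) : ℝ) := by
    intro q hqS
    obtain ⟨h0, h1, h2⟩ := hq q hqS
    have hqp : q.Prime := (mem_filter.1 hqS).2
    have hφ : (0 : ℝ) < Nat.totient q := by exact_mod_cast Nat.totient_pos.2 hqp.pos
    have hφq : (q : ℝ) / 2 ≤ Nat.totient q := by
      rw [Nat.totient_prime hqp]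
      have : (((q - 1 : ℕ)) : ℝ) = q - 1 := by
        rw [Nat.cast_sub hqp.one_lt.le]; simp
      rw [this]; linarith
    apply Nat.cast_le.2
    apply card_le_card
    intro a ha
    rw [mem_filter] at ha ⊢
    refine ⟨ha.1, ha.2.1, ?_⟩
    have h3 := smallPart_prime x q a hqp ha.2.1 hN1
    have h4 : |psiAP x q a - psi x / (Nat.totient q : ℝ)| ≤
        ‖(psiAP x q a : ℂ) - smallPart x q 1 a‖ + Real.log N / Nat.totient q := by
      have e1 : ((psiAP x q a - psi x / (Nat.totient q : ℝ) : ℝ) : ℂ) =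
        ((psiAP x q a : ℂ) - smallPart x q 1 a) + (smallPart x q 1 a - ((psi x / (Nat.totient q : ℝ) : ℝ) : ℂ)) := by
        push_cast; ring
      rw [← Real.norm_eq_abs, ← Complex.norm_real, e1]
      exact (norm_add_le _ _).trans (add_le_add_right h3 _)
    have h5 : Real.log N / Nat.totient q ≤ t q := by
      rw [ht]
      dsimp only
      rw [div_le_iff₀ hφ]
      have h6 : (1 : ℝ) ≤ √(q : ℝ) := by apply Real.le_sqrt_of_sq_le; linarith
      have h7 : x ^ (1 / 2 + ε) / √(q : ℝ) / 2 * Nat.totient q ≥ x ^ (1 / 2 + ε) / √(q : ℝ) / 2 * (q / 2) :=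
        mul_le_mul_of_nonneg_left hφq (by positivity)
      have h8 : x ^ (1 / 2 + ε) / √(q : ℝ) / 2 * (q / 2) = x ^ (1 / 2 + ε) * √(q : ℝ) / 4 := by
        have h9 : (q : ℝ) = √(q : ℝ) * √(q : ℝ) := (Real.mul_self_sqrt h0.le).symm
        have h10 : √(q : ℝ) ≠ 0 := by positivity
        field_simp
        nlinarith
      have h11 : x ^ (1 / 8 : ℝ) ≤ x ^ (1 / 2 + ε) := Real.rpow_le_rpow_of_exponent_le hx1 (by linarith)
      have h12 : x ^ (1 / 2 + ε) * 1 ≤ x ^ (1 / 2 + ε) * √(q : ℝ) := mul_le_mul_of_nonneg_left h6 (by positivity)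
      nlinarith
    have h13 : x ^ (1 / 2 + ε) / √(q : ℝ) = t q + t q := by rw [ht]; ring
    linarith [ha.2.2]
  refine (sum_le_sum hincl).trans (hch.trans ?_)
  rw [div_le_iff₀ hT]
  have hvar' : ∑ q ∈ S, ∑ a ∈ (range q).filter (fun a => Nat.Coprime a q), ‖(psiAP x q a : ℂ) - smallPart x q 1 a‖ ^ 2 ≤
      6 * (N + (M : ℝ) ^ 2) * (N * Real.log N ^ 2) / K := hvar
  refine hvar'.trans ?_
  have h1 : 6 * (N + (M : ℝ) ^ 2) * (N * Real.log N ^ 2) / K ≤ 6 * (2 * Q ^ 2 * x ^ (ε / 2)) * (x * Real.log x ^ 2) / (Q / 4) := by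
    apply div_le_div₀ (by positivity) _ (by linarith) (by linarith)
    apply mul_le_mul _ _ (by positivity) (by positivity)
    · have : (M : ℝ) ^ 2 ≤ Q ^ 2 := pow_le_pow_left₀ (Nat.cast_nonneg _) hMle 2
      have h9 : Q ^ 2 ≤ Q ^ 2 * x ^ (ε / 2) := le_mul_of_one_le_right (by positivity) hz1
      linarith
    · apply mul_le_mul hNx (pow_le_pow_left₀ hlogN0 hlogN 2) (by positivity) hx0.le
  refine h1.trans ?_
  have h2 : 6 * (2 * Q ^ 2 * x ^ (ε / 2)) * (x * Real.log x ^ 2) / (Q / 4) =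
      48 * Q * x * Real.log x ^ 2 * x ^ (ε / 2) := by
    field_simp; ring
  rw [h2]
  have h3 : Q ^ 2 * x ^ (-ε) * (x ^ (1 + 2 * ε) / (4 * Q)) = Q * x ^ (1 + ε) / 4 := by
    have : x ^ (1 + ε) = x ^ (-ε) * x ^ (1 + 2 * ε) := by rw [← Real.rpow_add hx0]; congr 1; ring
    rw [this]; field_simp
  rw [h3]
  have h4 : x ^ (1 + ε) = x * x ^ (ε / 2) * x ^ (ε / 2) := by
    rw [mul_assoc, ← Real.rpow_add hx0, Real.rpow_add hx0, Real.rpow_one]; congr 2; ring
  rw [h4]
  have h7 : 0 < Q * x := by positivity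
  calc 48 * Q * x * Real.log x ^ 2 * x ^ (ε / 2) = (Q * x * x ^ (ε / 2)) * (48 * Real.log x ^ 2) := by ring
    _ ≤ (Q * x * x ^ (ε / 2)) * (x ^ (ε / 2) / 4) := by
        apply mul_le_mul_of_nonneg_left _ (by positivity)
        nlinarith [sq_nonneg (Real.log x)]
    _ = _ := by ring

end Pool.Agent.X25.MG
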