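import Mathlib
import Pool.Agent.X25.MG.Base
import Pool.Agent.Helper112.Arith

/-! Montgomery's estimate for almost all pairs (modulus, class). -/

set_option autoImplicit false

namespace Pool.Agent.X25.MG
open Finset
open Pool.Agent.W110.HV
open Pool.Agent.Helper112

/-- for prime moduli the estimate with `x / φ(q)` for almost all pairs is equivalent to a bound for `ψ(x) - x` -/
theorem prime_pairs_iff (ε : ℝ) (hε : 0 < ε) (hε1 : ε ≤ 1) : ∃ x₀ : ℝ, ∀ x : ℝ, x₀ ≤ x → ∀ Q : ℝ,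
    x ^ (1 / 2 - ε / 4) ≤ Q → Q ≤ x →
    (|psi x - x| ≤ x ^ (1 / 2 + ε) * √Q →
      ∑ q ∈ (Ioc ⌊Q / 2⌋₊ ⌊Q⌋₊).filter Nat.Prime,
        ((((range q).filter (fun a => a.Coprime q ∧
          4 * (x ^ (1 / 2 + ε) / √(q : ℝ)) < |psiAP x q a - x / (Nat.totient q : ℝ)|)).card : ℕ) : ℝ) ≤
        Q ^ 2 * x ^ (-ε)) ∧
    (6 * (x ^ (1 / 2 + ε) * √Q) ≤ |psi x - x| →
      ∑ q ∈ (Ioc ⌊Q / 2⌋₊ ⌊Q⌋₊).filter Nat.Prime,
        ((((range q).filter (fun a => a.Coprime q ∧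
          |psiAP x q a - x / (Nat.totient q : ℝ)| ≤ 4 * (x ^ (1 / 2 + ε) / √(q : ℝ)))).card : ℕ) : ℝ) ≤
        Q ^ 2 * x ^ (-ε)) := by
  obtain ⟨x₀, h0⟩ := prime_pairs ε hε hε1
  refine ⟨max x₀ (100 ^ 4), fun x hx Q hQ1 hQ2 => ?_⟩
  have hx0' := (le_max_right _ _).trans hx
  have hx0 : 0 < x := by linarith
  have hs : 100 ≤ x ^ (1 / 2 - ε / 4) := by
    calc (100 : ℝ) = (100 ^ 4 : ℝ) ^ (1 / 4 : ℝ) := by
          rw [← Real.rpow_natCast, ← Real.rpow_mul (by norm_num)]; norm_num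
      _ ≤ x ^ (1 / 4 : ℝ) := Real.rpow_le_rpow (by norm_num) hx0' (by norm_num)
      _ ≤ x ^ (1 / 2 - ε / 4) := Real.rpow_le_rpow_of_exponent_le (by linarith) (by linarith)
  have hQ0 : 100 ≤ Q := hs.trans hQ1
  have hmain := h0 x ((le_max_left _ _).trans hx) Q hQ1 hQ2
  have hKgt : Q / 2 < (⌊Q / 2⌋₊ : ℝ) + 1 := Nat.lt_floor_add_one _
  have hMle : (⌊Q⌋₊ : ℝ) ≤ Q := Nat.floor_le (by linarith)
  have hq : ∀ q ∈ (Ioc ⌊Q / 2⌋₊ ⌊Q⌋₊).filter Nat.Prime,
      q.Prime ∧ (0 : ℝ) < q ∧ (q : ℝ) ≤ Q ∧ Q ≤ 2 * (q : ℝ) ∧ (49 : ℝ) ≤ q ∧ (Nat.totient q : ℝ) = q - 1 := by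
    intro q hq
    rw [mem_filter, mem_Ioc] at hq
    have h1 : (⌊Q / 2⌋₊ : ℝ) + 1 ≤ q := by exact_mod_cast hq.1.1
    have h2 : (q : ℝ) ≤ ⌊Q⌋₊ := by exact_mod_cast hq.1.2
    refine ⟨hq.2, by linarith, by linarith, by linarith, by linarith, ?_⟩
    rw [Nat.totient_prime hq.2, Nat.cast_sub hq.2.one_lt.le]; simp
  have hbase : 0 < x ^ (1 / 2 + ε) := by positivity
  have hlow : ∀ q ∈ (Ioc ⌊Q / 2⌋₊ ⌊Q⌋₊).filter Nat.Prime, 1 / √(q : ℝ) ≤ √Q / (Nat.totient q : ℝ) ∧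
      √Q / (Nat.totient q : ℝ) ≤ 3 * (1 / √(q : ℝ)) := by
    intro q hqS
    obtain ⟨h1, h2, h3, h4, h5, h6⟩ := hq q hqS
    rw [h6]
    have hq1 : (0 : ℝ) < q - 1 := by linarith
    have hsq : 0 < √(q : ℝ) := Real.sqrt_pos.2 h2
    have hmul : √(q : ℝ) * √(q : ℝ) = q := Real.mul_self_sqrt h2.le
    constructor
    · rw [div_le_div_iff₀ hsq hq1, one_mul]
      have : √(q : ℝ) ≤ √Q := Real.sqrt_le_sqrt h3
      nlinarith
    · rw [mul_one_div, div_le_div_iff₀ hq1 hsq]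
      have h7 : √Q ≤ √2 * √(q : ℝ) := by
        rw [← Real.sqrt_mul (by norm_num)]
        exact Real.sqrt_le_sqrt h4
      have h8 : √(2 : ℝ) ≤ 3 / 2 := by
        rw [Real.sqrt_le_left (by norm_num)]; norm_num
      have h9 : √Q * √(q : ℝ) ≤ 3 / 2 * q := by
        calc √Q * √(q : ℝ) ≤ (3 / 2 * √(q : ℝ)) * √(q : ℝ) := by
              apply mul_le_mul_of_nonneg_right _ hsq.le
              exact h7.trans (mul_le_mul_of_nonneg_right h8 hsq.le)
          _ = 3 / 2 * q := by rw [mul_assoc, hmul]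
      linarith
  constructor
  · intro hΔ
    refine le_trans (sum_le_sum fun q hqS => ?_) hmain
    obtain ⟨h1, h2, h3, h4, h5, h6⟩ := hq q hqS
    apply Nat.cast_le.2
    apply card_le_card
    intro a ha
    rw [mem_filter] at ha ⊢
    refine ⟨ha.1, ha.2.1, ?_⟩
    have hφ : (0 : ℝ) < (Nat.totient q : ℝ) := by rw [h6]; linarith
    have e1 : |psiAP x q a - x / (Nat.totient q : ℝ)| ≤
        |psiAP x q a - psi x / (Nat.totient q : ℝ)| + |psi x - x| / (Nat.totient q : ℝ) := by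
      have : psiAP x q a - x / (Nat.totient q : ℝ) =
        (psiAP x q a - psi x / (Nat.totient q : ℝ)) + (psi x - x) / (Nat.totient q : ℝ) := by ring
      rw [this]
      refine (abs_add_le _ _).trans (le_of_eq ?_)
      rw [abs_div, abs_of_pos hφ]
    have e2 : |psi x - x| / (Nat.totient q : ℝ) ≤ 3 * (x ^ (1 / 2 + ε) / √(q : ℝ)) := by
      calc |psi x - x| / (Nat.totient q : ℝ) ≤ x ^ (1 / 2 + ε) * √Q / (Nat.totient q : ℝ) :=
            div_le_div_of_nonneg_right hΔ hφ.le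
        _ = x ^ (1 / 2 + ε) * (√Q / (Nat.totient q : ℝ)) := by ring
        _ ≤ x ^ (1 / 2 + ε) * (3 * (1 / √(q : ℝ))) := mul_le_mul_of_nonneg_left (hlow q hqS).2 hbase.le
        _ = _ := by ring
    linarith [ha.2.2]
  · intro hΔ
    refine le_trans (sum_le_sum fun q hqS => ?_) hmain
    obtain ⟨h1, h2, h3, h4, h5, h6⟩ := hq q hqS
    apply Nat.cast_le.2
    apply card_le_card
    intro a ha
    rw [mem_filter] at ha ⊢
    refine ⟨ha.1, ha.2.1, ?_⟩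
    have hφ : (0 : ℝ) < (Nat.totient q : ℝ) := by rw [h6]; linarith
    have e1 : |psi x - x| / (Nat.totient q : ℝ) ≤
        |psiAP x q a - psi x / (Nat.totient q : ℝ)| + |psiAP x q a - x / (Nat.totient q : ℝ)| := by
      have : (psi x - x) / (Nat.totient q : ℝ) =
        -(psiAP x q a - psi x / (Nat.totient q : ℝ)) + (psiAP x q a - x / (Nat.totient q : ℝ)) := by ring
      rw [← abs_of_pos hφ, ← abs_div, abs_of_pos hφ, this]
      refine (abs_add_le _ _).trans (le_of_eq ?_)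
      rw [abs_neg]
    have e2 : 6 * (x ^ (1 / 2 + ε) / √(q : ℝ)) ≤ |psi x - x| / (Nat.totient q : ℝ) := by
      calc 6 * (x ^ (1 / 2 + ε) / √(q : ℝ)) = 6 * (x ^ (1 / 2 + ε) * (1 / √(q : ℝ))) := by ring
        _ ≤ 6 * (x ^ (1 / 2 + ε) * (√Q / (Nat.totient q : ℝ))) := by
            apply mul_le_mul_of_nonneg_left _ (by norm_num)
            exact mul_le_mul_of_nonneg_left (hlow q hqS).1 hbase.le
        _ = 6 * (x ^ (1 / 2 + ε) * √Q) / (Nat.totient q : ℝ) := by ring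
        _ ≤ _ := div_le_div_of_nonneg_right hΔ hφ.le
    have h7 : 0 < x ^ (1 / 2 + ε) / √(q : ℝ) := by positivity
    linarith [ha.2.2]

/-- all moduli in `(K, 2K]`, after the removal of the characters of conductor at most `y ≥ x / K` -/
theorem all_pairs (ε : ℝ) (hε : 0 < ε) : ∃ x₀ : ℝ, ∀ x : ℝ, x₀ ≤ x → ∀ K y : ℕ, 1 ≤ K → (K : ℝ) ≤ x →
    x ≤ K * y →
    ∑ q ∈ Ioc K (2 * K),
      ((((range q).filter (fun a => a.Coprime q ∧
        x ^ (1 / 2 + ε) / √(q : ℝ) < ‖(psiAP x q a : ℂ) - smallPart x q y a‖)).card : ℕ) : ℝ) ≤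
      (K : ℝ) ^ 2 * x ^ (-ε) := by
  obtain ⟨C, hC0, hC⟩ := divisor_bound (ε / 8) (by positivity)
  have hev : ∀ᶠ x : ℝ in Filter.atTop, 4000 * C ≤ x ^ (ε / 4) :=
    (tendsto_rpow_atTop (by positivity : 0 < ε / 4)).eventually_ge_atTop _
  obtain ⟨m1, e1⟩ := ev_nat ((ev_pow_le 4 (ε / 4) (by positivity) 1).and
    (hev.and ((ev_log_ge 1).and (Filter.eventually_ge_atTop 10000))))
  refine ⟨m1, fun x hx K y hK hKx hxy => ?_⟩
  obtain ⟨a1, a2, a3, a4⟩ := e1 x hx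
  rw [one_mul] at a1
  have hx0 : 0 < x := by linarith
  have hx1 : 1 ≤ x := by linarith
  set N := ⌊x⌋₊ with hN
  have hN1 : 1 ≤ N := by
    rw [hN]; exact Nat.le_floor (by exact_mod_cast hx1)
  have hNx : (N : ℝ) ≤ x := Nat.floor_le hx0.le
  have hN0 : (0 : ℝ) < N := by exact_mod_cast hN1
  have hlogN : Real.log N ≤ Real.log x := Real.log_le_log hN0 hNx
  have hlogN0 : 0 ≤ Real.log N := Real.log_natCast_nonneg N
  have hKr : (0 : ℝ) < K := by exact_mod_cast hK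
  set L := Real.log x with hL
  have hL0 : 0 < L := by linarith
  -- the divisor bound
  set D : ℝ := C * x ^ (ε / 4) with hD
  have hD0 : 0 ≤ D := by positivity
  have hDq : ∀ q ∈ Ioc K (2 * K), (q.divisors.card : ℝ) ≤ D := by
    intro q hq
    rw [mem_Ioc] at hq
    refine (hC q (by omega)).trans ?_
    apply mul_le_mul_of_nonneg_left _ hC0.le
    have h1 : (q : ℝ) ≤ 2 * K := by exact_mod_cast hq.2
    have h2 : (q : ℝ) ≤ x ^ 2 := by nlinarith
    calc (q : ℝ) ^ (ε / 8) ≤ (x ^ 2) ^ (ε / 8) := Real.rpow_le_rpow (Nat.cast_nonneg _) h2 (by positivity)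
      _ = x ^ (ε / 4) := by
          rw [← Real.rpow_natCast x 2, ← Real.rpow_mul hx0.le]; congr 1; push_cast; ring
  have hW : ∀ q ∈ Ioc K (2 * K), ∑ n ∈ (Icc 1 N).filter (fun n => ¬ n.Coprime q), ‖uL n‖ ≤ 4 * L ^ 2 := by
    intro q hq
    rw [mem_Ioc] at hq
    rw [sum_congr rfl fun n _ => norm_uL n]
    refine (sum_not_coprime q N (by omega) hN1).trans ?_
    have h1 := omega_le q (by omega)
    have hq0 : (0 : ℝ) < q := by exact_mod_cast (by omega : 0 < q)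
    have h2 : Real.log q ≤ 2 * L := by
      have h3 : (q : ℝ) ≤ x ^ 2 := by
        have : (q : ℝ) ≤ 2 * K := by exact_mod_cast hq.2
        nlinarith
      calc Real.log q ≤ Real.log (x ^ 2) := Real.log_le_log hq0 h3
        _ = 2 * L := by rw [Real.log_pow]; push_cast; ring
    calc (q.primeFactors.card : ℝ) * Real.log N ≤ (2 * (2 * L)) * L := by
          apply mul_le_mul (by linarith) hlogN hlogN0 (by positivity)
      _ = 4 * L ^ 2 := by ring
  have hsc := small_cond N uL K y (2 * K) (4 * L ^ 2) D hK hD0 hDq hW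
  -- the variance
  have hvar : ∑ q ∈ Ioc K (2 * K), GR x q y ≤
      D * (48 * (N / (y + 1) + (2 * K : ℕ)) * ∑ n ∈ Icc 1 N, ‖uL n‖ ^ 2 + 4 * (4 * L ^ 2) ^ 2 * (2 * K : ℕ)) := by
    refine le_trans (le_of_eq ?_) hsc
    refine sum_congr rfl fun q hq => ?_
    rw [mem_Ioc] at hq
    have : NeZero q := ⟨by omega⟩
    have hφ : (0 : ℝ) < Nat.totient q := by exact_mod_cast Nat.totient_pos.2 (by omega)
    have h1 := GR_eq q x y
    have h2 : GR x q y = (1 / (Nat.totient q : ℝ)) * ((Nat.totient q : ℝ) * GR x q y) := by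
      field_simp
    rw [h2, h1]
    congr 1
    apply sum_congr _ fun χ _ => by rw [psiChi_eq]
    ext χ
    simp only [mem_filter, mem_univ, true_and]
    have hd : χ.conductor ≤ q := Nat.le_of_dvd (by omega) χ.conductor_dvd_level
    constructor
    · intro h3; exact ⟨h3, by omega⟩
    · intro h3; exact h3.1
  set t : ℕ → ℝ := fun q => x ^ (1 / 2 + ε) / √(q : ℝ) with ht
  have htq : ∀ q ∈ Ioc K (2 * K), 0 ≤ t q ∧ x ^ (1 + 2 * ε) / (2 * K) ≤ t q ^ 2 := by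
    intro q hq
    rw [mem_Ioc] at hq
    have h0 : (0 : ℝ) < q := by exact_mod_cast (by omega : 0 < q)
    have h1 : (q : ℝ) ≤ 2 * K := by exact_mod_cast hq.2
    refine ⟨by positivity, ?_⟩
    have h3 : t q ^ 2 = x ^ (1 + 2 * ε) / q := by
      rw [ht]
      dsimp only
      rw [div_pow, Real.sq_sqrt h0.le, ← Real.rpow_natCast (x ^ (1 / 2 + ε)), ← Real.rpow_mul hx0.le]
      have : (1 / 2 + ε) * ((2 : ℕ) : ℝ) = 1 + 2 * ε := by push_cast; ring
      rw [this]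
    rw [h3]
    exact div_le_div_of_nonneg_left (by positivity) h0 h1
  have hT : 0 < x ^ (1 + 2 * ε) / (2 * K) := by positivity
  have hch := cheb (Ioc K (2 * K)) (fun q a => (psiAP x q a : ℂ) - smallPart x q y a) t _ hT htq
  refine hch.trans ?_
  rw [div_le_iff₀ hT]
  have hvar' : ∑ q ∈ Ioc K (2 * K), ∑ a ∈ (range q).filter (fun a => Nat.Coprime a q), ‖(psiAP x q a : ℂ) - smallPart x q y a‖ ^ 2 ≤
      D * (48 * (N / (y + 1) + (2 * K : ℕ)) * ∑ n ∈ Icc 1 N, ‖uL n‖ ^ 2 + 4 * (4 * L ^ 2) ^ 2 * (2 * K : ℕ)) := hvar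
  refine hvar'.trans ?_
  have hy1 : (N : ℝ) / (y + 1) ≤ K := by
    rw [div_le_iff₀ (by positivity)]
    nlinarith
  have hsum := sum_sq N hN1
  have hsum2 : ∑ n ∈ Icc 1 N, ‖uL n‖ ^ 2 ≤ x * L ^ 2 := by
    refine hsum.trans ?_
    apply mul_le_mul hNx (pow_le_pow_left₀ hlogN0 hlogN 2) (by positivity) hx0.le
  have h1 : 48 * (N / (y + 1) + (2 * K : ℕ)) * ∑ n ∈ Icc 1 N, ‖uL n‖ ^ 2 + 4 * (4 * L ^ 2) ^ 2 * (2 * K : ℕ) ≤
      500 * (K * x * L ^ 4) := by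
    push_cast
    have hLL : L ^ 2 ≤ L ^ 4 := pow_le_pow_right₀ a3 (by norm_num)
    have b1 : 48 * (N / (y + 1) + 2 * (K : ℝ)) * ∑ n ∈ Icc 1 N, ‖uL n‖ ^ 2 ≤ 48 * (3 * K) * (x * L ^ 4) := by
      apply mul_le_mul (by linarith) _ (sum_nonneg fun _ _ => by positivity) (by positivity)
      refine hsum2.trans ?_
      exact mul_le_mul_of_nonneg_left hLL hx0.le
    have b2 : 4 * (4 * L ^ 2) ^ 2 * (2 * (K : ℝ)) ≤ 128 * (K * x * L ^ 4) := by
      have : 4 * (4 * L ^ 2) ^ 2 * (2 * (K : ℝ)) = 128 * (K * 1 * L ^ 4) := by ring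
      rw [this]
      apply mul_le_mul_of_nonneg_left _ (by norm_num)
      apply mul_le_mul_of_nonneg_right _ (by positivity)
      exact mul_le_mul_of_nonneg_left hx1 hKr.le
    have b3 : 0 ≤ K * x * L ^ 4 := by positivity
    nlinarith
  have h3 : (K : ℝ) ^ 2 * x ^ (-ε) * (x ^ (1 + 2 * ε) / (2 * K)) = K * x ^ (1 + ε) / 2 := by
    have : x ^ (1 + ε) = x ^ (-ε) * x ^ (1 + 2 * ε) := by rw [← Real.rpow_add hx0]; congr 1; ring
    rw [this]; field_simp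
  rw [h3]
  have h4 : x ^ (1 + ε) = x * (x ^ (ε / 4) * x ^ (ε / 4)) * (x ^ (ε / 4) * x ^ (ε / 4)) := by
    have h5 : x ^ (1 + ε) = x ^ (1 : ℝ) * (x ^ (ε / 4) * x ^ (ε / 4)) * (x ^ (ε / 4) * x ^ (ε / 4)) := by
      rw [← Real.rpow_add hx0, ← Real.rpow_add hx0, ← Real.rpow_add hx0]
      congr 1; ring
    rw [h5, Real.rpow_one]
  set z := x ^ (ε / 4) with hz
  have hz1 : 1 ≤ z := Real.one_le_rpow hx1 (by positivity)
  calc D * (48 * (N / (y + 1) + (2 * K : ℕ)) * ∑ n ∈ Icc 1 N, ‖uL n‖ ^ 2 + 4 * (4 * L ^ 2) ^ 2 * (2 * K : ℕ))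
      ≤ D * (500 * (K * x * L ^ 4)) := mul_le_mul_of_nonneg_left h1 hD0
    _ = (K * x) * (500 * C * (z * L ^ 4)) := by rw [hD]; ring
    _ ≤ (K * x) * (500 * C * (z * z)) := by
        apply mul_le_mul_of_nonneg_left _ (by positivity)
        apply mul_le_mul_of_nonneg_left _ (by positivity)
        exact mul_le_mul_of_nonneg_left a1 (by positivity)
    _ ≤ (K * x) * ((z * z) * (z * z) / 2) := by
        apply mul_le_mul_of_nonneg_left _ (by positivity)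
        have h5 : 500 * C ≤ z * z / 2 := by nlinarith
        calc 500 * C * (z * z) ≤ (z * z / 2) * (z * z) := mul_le_mul_of_nonneg_right h5 (by positivity)
          _ = _ := by ring
    _ = _ := by rw [h4]; ring

end Pool.Agent.X25.MG
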